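import Pool.Agent.H53.PNF.D
import Pool.Agent.H95.PRK.SQLK

/-!
# PNF, row SQC: `1 + 4 π p` is a square modulo a monic polynomial
-/

set_option autoImplicit false

namespace Pool.PNF

open Polynomial NumberField IsDedekindDomain Pool.HYP Pool.TOW Pool.AVS Pool.T1 Pool.NF Pool.PRK

namespace SQC

theorem max_eq {L : Type} [Field L] {O : ValuationSubring L} {π : L} (hL : UD.LocW L O π)
    {ϖ : O} (hϖ : (ϖ : L) = π) : IsLocalRing.maximalIdeal O = Ideal.span {ϖ} := by
  apply le_antisymm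
  · intro x hx
    rw [Ideal.mem_span_singleton]
    by_cases h0 : (x : L) = 0
    · have : x = 0 := Subtype.ext h0
      rw [this]
      exact dvd_zero _
    · have h1 : (x : L)⁻¹ ∉ O := by
        intro h
        rw [IsLocalRing.mem_maximalIdeal] at hx
        apply hx
        exact IsUnit.of_mul_eq_one (⟨(x : L)⁻¹, h⟩ : O) (Subtype.ext (mul_inv_cancel₀ h0))
      have h2 := (hL.unif x x.2 h0).1 h1
      refine ⟨⟨(x : L) / π, h2⟩, Subtype.ext ?_⟩
      show (x : L) = (ϖ : L) * ((x : L) / π)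
      rw [hϖ, mul_div_cancel₀ _ hL.pi_ne]
  · rw [Ideal.span_singleton_le_iff_mem, IsLocalRing.mem_maximalIdeal]
    intro hu
    obtain ⟨v, hv⟩ := hu.exists_right_inv
    have h3 : π * (v : L) = 1 := by
      rw [← hϖ]
      exact congrArg (Subtype.val) hv
    have h4 : π⁻¹ = (v : L) := by
      rw [← mul_one π⁻¹, ← h3, inv_mul_cancel_left₀ hL.pi_ne]
    have h5 := (hL.unif π hL.pi_mem hL.pi_ne).2 (by
      rw [div_self hL.pi_ne]
      exact O.one_mem)
    apply h5
    rw [h4]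
    exact v.2

end SQC

theorem sqc : SQCStmt := by
  intro L _ O π e hL ϖ hϖ f p hf
  set m := IsLocalRing.maximalIdeal O with hm
  have hcpl : IsAdicComplete m O := hL.cpl
  have hH := SQ95.adj_hensel m f hf
  set J : Ideal (AdjoinRoot f) := m.map (algebraMap O (AdjoinRoot f)) with hJ
  have hJs : J = Ideal.span {AdjoinRoot.mk f (C ϖ)} := by
    rw [hJ, hm, SQC.max_eq hL.loc hϖ, Ideal.map_span, Set.image_singleton]
    rfl
  have hmon : (X ^ 2 + X - C (AdjoinRoot.mk f (C ϖ * p)) : (AdjoinRoot f)[X]).Monic := by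
    have : (X ^ 2 + X - C (AdjoinRoot.mk f (C ϖ * p)) : (AdjoinRoot f)[X]) =
        X ^ 2 + (X - C (AdjoinRoot.mk f (C ϖ * p))) := by ring
    rw [this]
    refine monic_X_pow_add ?_
    exact (degree_X_sub_C_le _).trans_lt (by norm_num)
  have h1 : (X ^ 2 + X - C (AdjoinRoot.mk f (C ϖ * p)) : (AdjoinRoot f)[X]).eval 0 ∈ J := by
    simp only [eval_sub, eval_add, eval_pow, eval_X, eval_C]
    rw [hJs, Ideal.mem_span_singleton, map_mul]
    exact ⟨-AdjoinRoot.mk f p, by ring⟩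
  have h2 : IsUnit (Ideal.Quotient.mk J ((derivative
      (X ^ 2 + X - C (AdjoinRoot.mk f (C ϖ * p)) : (AdjoinRoot f)[X])).eval 0)) := by
    have : (derivative (X ^ 2 + X - C (AdjoinRoot.mk f (C ϖ * p)) : (AdjoinRoot f)[X])).eval 0 =
        1 := by
      simp
    rw [this, map_one]
    exact isUnit_one
  obtain ⟨t, ht, htJ⟩ := hH.is_henselian _ hmon _ h1 h2
  rw [sub_zero, hJs, Ideal.mem_span_singleton] at htJ
  obtain ⟨z', hz'⟩ := htJ
  obtain ⟨z, rfl⟩ := AdjoinRoot.mk_surjective z'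
  refine ⟨z, ?_⟩
  rw [← AdjoinRoot.mk_eq_zero]
  rw [IsRoot.def] at ht
  simp only [eval_sub, eval_add, eval_pow, eval_X, eval_C] at ht
  have e1 : AdjoinRoot.mk f ((1 + 2 * C ϖ * z) ^ 2 - (1 + 4 * C ϖ * p)) =
      4 * (t ^ 2 + t - AdjoinRoot.mk f (C ϖ * p)) := by
    rw [hz']
    simp only [map_sub, map_add, map_mul, map_pow, map_one, map_ofNat]
    ring
  rw [e1, ht, mul_zero]

end Pool.PNF
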