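import Pool.Agent.H72.PNF.S2

/-!
# PNF, row L2SN: `Loc2` depends on the class modulo squares only
-/

set_option autoImplicit false

namespace Pool.PNF

open Polynomial Matrix NumberField IsDedekindDomain Pool.HYP Pool.TOW Pool.AVS Pool.T1 Pool.NF
  Pool.PRK

theorem l2sn : L2SNStmt := by
  intro K _ _ f α β s _ hs hd h L _ O ι hι h2
  obtain ⟨u, w, r, hu, hc, hw, hr⟩ := h L O ι hι h2
  obtain ⟨t, y, hty⟩ := hs
  obtain ⟨z, hz⟩ := hd
  obtain ⟨k, hk⟩ := hr
  have e1 := congrArg (Polynomial.map ι) hty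
  have e2 := congrArg (Polynomial.map ι) hz
  simp only [Polynomial.map_add, Polynomial.map_sub, Polynomial.map_mul, Polynomial.map_pow,
    Polynomial.map_one] at e1 e2
  refine ⟨u, w, r * t.map ι, hu, hc, hw, ?_⟩
  set F := (fk K f).map ι
  set a := α.map ι
  set b := β.map ι
  set S := s.map ι
  set T := t.map ι
  set Y := y.map ι
  set Z := z.map ι
  refine ⟨k - Z * (r * T) ^ 2 + a * r ^ 2 * Y * (1 + S * T), ?_⟩
  linear_combination hk - (r * T) ^ 2 * e2 - a * r ^ 2 * (1 + S * T) * e1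

end Pool.PNF
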